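import Mathlib
import Pool.Agent.MP_829a29_al.TriLow

set_option autoImplicit false

open Pool.Agent.MP_829a29_al

universe u

/-- For `n ≥ 2`, the triples `(n, c, s)` of central nilpotency class, nilpotency class of the
multiplication group and supernilpotency class of a loop are exactly those with
`n ≤ c ≤ s ≤ 2 ^ (n - 1) * (c - n + 1)`, and each of them is attained by a finite loop. -/
theorem Pool.Agent.Results.MP_829a29_al.ClassTriples.result (n c s : ℕ) (hn : 2 ≤ n) :
    (∀ (Q : Type u) [Loop Q], HasClasses Q n c s →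
      n ≤ c ∧ c ≤ s ∧ s ≤ 2 ^ (n - 1) * (c - n + 1)) ∧
    (n ≤ c ∧ c ≤ s ∧ s ≤ 2 ^ (n - 1) * (c - n + 1) →
      ∃ (Q : Type) (_ : Loop Q), Finite Q ∧ HasClasses Q n c s) :=
  ⟨fun _ _ => Tri.necessary hn, fun h => Tri.sufficient hn h.1 h.2.1 h.2.2⟩
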