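import Mathlib
import Pool.Agent.MP_829a29_al.Defs
import Pool.Agent.MP_829a29_al.Main

set_option autoImplicit false

open Pool.Agent.MP_829a29_al

universe u

/-- Every loop (finite or not) whose multiplication group is nilpotent, of class `c`, is
`k`-supernilpotent for some `k` with `1 ≤ k ≤ 2 ^ (c - 1)`. -/
theorem Pool.Agent.Results.MP_829a29_al.MltNilpotentSupernilpotent.result
    (Q : Type u) [Loop Q] (h : Group.IsNilpotent (Mlt Q)) :
    ∃ k : ℕ, 1 ≤ k ∧ k ≤ 2 ^ (Group.nilpotencyClass (Mlt Q) - 1) ∧ IsKSupernilpotent Q k :=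
  ⟨_, Nat.one_le_two_pow, le_rfl, supernilpotent_of_isNilpotent_Mlt⟩
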